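import Mathlib

namespace Pool.Agent.H.MP_dc2775_an

open Set Filter Topology

set_option maxHeartbeats 400000

noncomputable def ps (x : ℕ → ℝ) (A : Set ℕ) (N : ℕ) : ℝ := ∑ n ∈ Finset.range N, A.indicator x n
def SS (x : ℕ → ℝ) (A : Set ℕ) (s : ℝ) : Prop := Tendsto (ps x A) atTop (𝓝 s)
def Ac (x : ℕ → ℝ) (I : Set (Set ℕ)) : Set ℝ := {s | ∃ A ∈ I, SS x A s}

theorem ps_succ (x A N) : ps x A (N + 1) = ps x A N + A.indicator x N := Finset.sum_range_succ _ _

theorem change {x : ℕ → ℝ} {A B : Set ℕ} {s : ℝ} (h : SS x A s) (n : ℕ)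
    (hAB : ∀ i ≥ n, A.indicator x i = B.indicator x i) : SS x B (s - ps x A n + ps x B n) := by
  refine ((h.sub_const (ps x A n)).add_const (ps x B n)).congr' ?_
  filter_upwards [eventually_ge_atTop n] with N hN
  induction N, hN using Nat.le_induction with
  | base => ring
  | succ N hN ih => rw [ps_succ, ps_succ, ← ih, hAB N hN]; ring

theorem SS_neg {x : ℕ → ℝ} {A : Set ℕ} {s : ℝ} (h : SS x A s) : SS (-x) A (-s) := by
  refine h.neg.congr fun N => ?_
  simp only [ps, ← Finset.sum_neg_distrib]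
  exact Finset.sum_congr rfl fun i _ => by by_cases h : i ∈ A <;> simp [h]

theorem Ac_neg (x : ℕ → ℝ) (I : Set (Set ℕ)) : Ac (-x) I = -Ac x I := by
  ext s
  constructor
  · rintro ⟨A, hA, h⟩
    exact ⟨A, hA, by simpa using SS_neg h⟩
  · rintro ⟨A, hA, h⟩
    exact ⟨A, hA, by simpa using SS_neg h⟩

theorem loc {x : ℕ → ℝ} {I : Set (Set ℕ)} (hU : ∀ A ∈ I, ∀ B ∈ I, A ∪ B ∈ I)
    (hS : ∀ A ∈ I, ∀ B ⊆ A, B ∈ I) (hF : ∀ A : Set ℕ, A.Finite → A ∈ I)
    (h : ¬ IsMeagre (Ac x I)) {u : ℝ} (hu : u ∈ Ac x univ) {ε : ℝ} (hε : 0 < ε) :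
    ¬ IsMeagre (Ac x I ∩ Metric.ball u ε) := by
  classical
  intro hm
  apply h
  obtain ⟨C, -, hC⟩ := hu
  obtain ⟨N, hN⟩ := eventually_atTop.1 (Metric.tendsto_nhds.1 hC _ (half_pos hε))
  refine IsMeagre.mono (s := ⋃ n, ⋃ F : Finset ℕ, (fun s => s - ps x F n + ps x C n) ⁻¹'
    (Ac x I ∩ Metric.ball u ε)) ?_ (isMeagre_iUnion fun n => isMeagre_iUnion fun F => ?_)
  · rintro s ⟨A, hA, hs⟩
    obtain ⟨n, n1, n2⟩ := ((Metric.tendsto_nhds.1 hs _ (half_pos hε)).and
      (eventually_ge_atTop N)).exists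
    refine mem_iUnion₂.2 ⟨n, (Finset.range n).filter (· ∈ A), ?_⟩
    have e1 : ps x ((Finset.range n).filter (· ∈ A) : Finset ℕ) n = ps x A n :=
      Finset.sum_congr rfl fun i hi => by by_cases h : i ∈ A <;> simp [h, Finset.mem_range.1 hi]
    have e2 : ps x {i | (i < n ∧ i ∈ C) ∨ (n ≤ i ∧ i ∈ A)} n = ps x C n :=
      Finset.sum_congr rfl fun i hi => by
        have hi := Finset.mem_range.1 hi
        by_cases h : i ∈ C <;> simp [indicator, h, hi, hi.not_ge]
    rw [mem_preimage, e1]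
    refine ⟨⟨{i | (i < n ∧ i ∈ C) ∨ (n ≤ i ∧ i ∈ A)}, ?_, ?_⟩, ?_⟩
    · refine hS _ (hU _ (hF _ (finite_Iio n)) _ hA) _ ?_
      rintro i (h | h)
      exacts [Or.inl h.1, Or.inr h.2]
    · rw [← e2]
      exact change hs n fun i hi => by
        by_cases h : i ∈ A <;> simp [indicator, h, hi.le, (ge_iff_le.1 hi).not_gt]
    · have := hN n n2
      rw [Metric.mem_ball, Real.dist_eq, abs_lt] at *
      constructor <;> linarith [this.1, this.2, n1.1, n1.2]
  · exact hm.preimage_of_isOpenMap (by fun_prop)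
      (((Homeomorph.subRight (ps x F n)).trans (Homeomorph.addRight (ps x C n))).isOpenMap)

theorem greedy {x : ℕ → ℝ} (h0 : Tendsto x atTop (𝓝 0)) (hs : ¬ Summable fun n => max (x n) 0)
    {y : ℝ} (hy : 0 ≤ y) : y ∈ Ac x univ := by
  classical
  let s : ℕ → ℝ := fun n => Nat.rec 0 (fun n a => if 0 < x n ∧ a + x n ≤ y then a + x n else a) n
  let A := {n | 0 < x n ∧ s n + x n ≤ y}
  have h1 : ∀ n, ps x A n = s n ∧ s n ≤ y := by
    intro n
    induction n with
    | zero => exact ⟨by simp [ps, s], hy⟩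
    | succ n ih =>
      have e : s (n + 1) = if 0 < x n ∧ s n + x n ≤ y then s n + x n else s n := rfl
      rw [ps_succ, ih.1, e]
      by_cases h : n ∈ A
      · rw [indicator_of_mem h, if_pos (show 0 < x n ∧ s n + x n ≤ y from h)]; exact ⟨rfl, h.2⟩
      · rw [indicator_of_notMem h, if_neg (show ¬(0 < x n ∧ s n + x n ≤ y) from h)]; exact ⟨add_zero _, ih.2⟩
  have h2 : ∀ n, 0 ≤ A.indicator x n := fun n => indicator_nonneg (fun a ha => ha.1.le) n
  have h3 : Summable (A.indicator x) :=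
    summable_of_sum_range_le h2 fun n => (h1 n).1.trans_le (h1 n).2
  refine ⟨A, trivial, ?_⟩
  have h4 : SS x A (∑' n, A.indicator x n) := h3.hasSum.tendsto_sum_nat
  have h5 : ∑' n, A.indicator x n ≤ y := le_of_tendsto' h4 fun n => (h1 n).1.trans_le (h1 n).2
  rcases h5.eq_or_lt with h | h
  · exact h ▸ h4
  exfalso
  apply hs
  obtain ⟨N, hN⟩ := eventually_atTop.1 (h0.eventually_lt_const (sub_pos.2 h))
  rw [← summable_nat_add_iff N]
  refine ((summable_nat_add_iff N).2 h3).congr fun n => ?_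
  by_cases hp : 0 < x (n + N)
  · have h6 : ps x A (n + N) ≤ ∑' n, A.indicator x n := h3.sum_le_tsum _ fun i _ => h2 i
    have h7 := hN (n + N) (by omega)
    rw [indicator_of_mem (show n + N ∈ A from ⟨hp, by linarith [(h1 (n + N)).1]⟩),
      max_eq_left hp.le]
  · rw [indicator_of_notMem fun h => hp h.1, max_eq_right (not_lt.1 hp)]

theorem summ_of {x : ℕ → ℝ} {s : ℝ} (hx : SS x univ s) (h : Summable fun n => max (x n) 0) :
    Summable x := by
  have h1 : Tendsto (fun N => ∑ n ∈ Finset.range N, (max (x n) 0 - x n)) atTop (𝓝 _) :=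
    (h.hasSum.tendsto_sum_nat.sub hx).congr fun N => by simp [ps]
  have h2 := (hasSum_iff_tendsto_nat_of_nonneg (fun n => by simp) _).2 h1
  exact (h.sub h2.summable).congr fun n => by ring

theorem zero {x : ℕ → ℝ} {s : ℝ} (hx : SS x univ s) : Tendsto x atTop (𝓝 0) := by
  have := ((tendsto_add_atTop_iff_nat 1).2 hx).sub hx
  rw [sub_self] at this
  exact this.congr fun n => by simp [ps_succ]

theorem dich {x : ℕ → ℝ} {s : ℝ} (hx : SS x univ s) : Summable x ∨ Ac x univ = univ := by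
  by_cases h : Summable x
  · exact Or.inl h
  refine Or.inr (eq_univ_of_forall fun y => ?_)
  rcases le_total 0 y with hy | hy
  · exact greedy (zero hx) (fun h' => h (summ_of hx h')) hy
  · have := greedy (zero (SS_neg hx)) (fun h' => h (summ_of (SS_neg hx) h').of_neg)
      (neg_nonneg.2 hy)
    rw [Ac_neg] at this
    simpa using this

theorem cpt {x : ℕ → ℝ} (hv : Summable x) : IsCompact (Ac x univ) := by
  classical
  have h1 : Continuous fun e : ℕ → Bool => ∑' i, if e i then x i else 0 := by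
    refine continuous_tsum (fun i => ?_) hv.norm fun i e => ?_
    · exact (continuous_of_discreteTopology (f := fun b : Bool => if b then x i else 0)).comp
        (continuous_apply i)
    · split_ifs <;> simp
  have h2 : Ac x univ = range fun e : ℕ → Bool => ∑' i, if e i then x i else 0 := by
    ext s
    constructor
    · rintro ⟨A, -, hA⟩
      refine ⟨fun i => decide (i ∈ A), ?_⟩
      rw [tendsto_nhds_unique hA (hv.indicator A).hasSum.tendsto_sum_nat]
      exact tsum_congr fun i => by by_cases h : i ∈ A <;> simp [h]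
    · rintro ⟨e, rfl⟩
      refine ⟨{i | e i = true}, trivial, ?_⟩
      have : (fun i => if e i = true then x i else 0) = {i | e i = true}.indicator x := by
        funext i; by_cases h : e i = true <;> simp [h]
      simp only [this]
      exact (hv.indicator _).hasSum.tendsto_sum_nat
  rw [h2]; exact isCompact_range h1

def Cov (x : ℕ → ℝ) (W : Set ℝ) (a b : ℕ) : Prop :=
  ∀ y ∈ W, ∀ A, SS x A y → ∀ i, a ≤ i → i < b → 0 < x i → i ∈ A

def P (x : ℕ → ℝ) (W : Set ℝ) (a : ℕ) : Prop :=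
  ∀ b, ∃ W' ⊆ W, IsOpen W' ∧ (W' ∩ Ac x univ).Nonempty ∧ Cov x W' a b

theorem gap {x : ℕ → ℝ} (hv : Summable x) (hi : interior (Ac x univ) = ∅) {W : Set ℝ}
    (hW : IsOpen W) (hne : (W ∩ Ac x univ).Nonempty) (k : ℕ) : ∃ a ≥ k, P x W a := by
  obtain ⟨y0, y1, y2⟩ := hne
  obtain ⟨δ, hδ, hb⟩ := Metric.isOpen_iff.1 hW y0 y1
  obtain ⟨z, z1, z2⟩ : ∃ z ∈ Ioo y0 (y0 + δ), z ∉ Ac x univ := by
    by_contra hc
    push Not at hc
    have := interior_maximal hc isOpen_Ioo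
    rw [hi] at this
    exact (nonempty_Ioo.2 (by linarith)).ne_empty (subset_empty_iff.1 this)
  obtain ⟨y, ⟨⟨y3, y4, y5⟩, y6⟩⟩ := ((cpt hv).inter_right (isClosed_Icc (a := y0) (b := z))
    ).exists_isGreatest ⟨y0, y2, le_rfl, z1.1.le⟩
  have hyz : y < z := lt_of_le_of_ne y5 fun h => z2 (h ▸ y3)
  have hmax : ∀ w ∈ Ac x univ, w ≤ z → w ≤ y := fun w hw hwz => by
    rcases le_total w y0 with h | h
    · linarith
    · exact y6 ⟨hw, h, hwz⟩
  obtain ⟨a, ha⟩ := eventually_atTop.1 ((hv.tendsto_atTop_zero.eventually_lt_const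
    (sub_pos.2 hyz)).and (eventually_ge_atTop k))
  refine ⟨a, (ha a le_rfl).2, fun b => ?_⟩
  refine ⟨W ∩ Iio z ∩ ⋂ i ∈ (Finset.range b).filter (0 < x ·), Ioi (y - x i),
    fun w hw => hw.1.1, (hW.inter isOpen_Iio).inter (isOpen_biInter_finset fun _ _ => isOpen_Ioi),
    ⟨y, ⟨⟨hb ?_, hyz⟩, mem_iInter₂.2 fun i hi => ?_⟩, y3⟩, ?_⟩
  · rw [Metric.mem_ball, Real.dist_eq, abs_lt]; constructor <;> linarith [z1.2]
  · have := (Finset.mem_filter.1 hi).2
    show y - x i < y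
    linarith
  · rintro w ⟨⟨-, w1⟩, w2⟩ A hA i i1 i2 i3
    by_contra hiA
    have w3 : y - x i < w := mem_iInter₂.1 w2 i (by simp [i2, i3])
    have w4 := hmax w ⟨A, trivial, hA⟩ (le_of_lt w1)
    have h1 := change (B := insert i A) hA (i + 1) fun j hj => by
      have : j ≠ i := by omega
      by_cases h : j ∈ A <;> simp [indicator, h, this]
    have h2 : ps x (insert i A) i = ps x A i := Finset.sum_congr rfl fun j hj => by
      have : j ≠ i := (Finset.mem_range.1 hj).ne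
      by_cases h : j ∈ A <;> simp [indicator, h, this]
    rw [ps_succ, ps_succ, h2, indicator_of_notMem hiA, indicator_of_mem (mem_insert _ _)] at h1
    have := hmax _ ⟨_, trivial, h1⟩ (by linarith [(ha i i1).1])
    linarith

theorem pos {x : ℕ → ℝ} {I : Set (Set ℕ)} (hU : ∀ A ∈ I, ∀ B ∈ I, A ∪ B ∈ I)
    (hS : ∀ A ∈ I, ∀ B ⊆ A, B ∈ I) (hF : ∀ A : Set ℕ, A.Finite → A ∈ I)
    (hv : Summable x) (hi : interior (Ac x univ) = ∅) {O : Set ℝ} (hO : IsOpen O)
    (hne : (O ∩ Ac x univ).Nonempty) (D : ℕ → Set ℝ) (hD : ∀ k, IsOpen (D k))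
    (hD' : ∀ k W, IsOpen W → (W ∩ Ac x univ).Nonempty → (W ∩ D k ∩ Ac x univ).Nonempty)
    (hM : ∀ y ∈ O ∩ Ac x univ, (∀ k, y ∈ D k) → y ∈ Ac x I) : {i | 0 < x i} ∈ I := by
  let T := {p : Set ℝ × ℕ // P x p.1 p.2}
  have step : ∀ (p : T) (b k : ℕ), ∃ q : T, closure q.1.1 ⊆ p.1.1 ∩ D (k / 2) ∧ k ≤ q.1.2 ∧
      Cov x q.1.1 p.1.2 b := by
    rintro ⟨⟨W, a⟩, hp⟩ b k
    obtain ⟨W', w1, w2, w3, w4⟩ := hp b
    obtain ⟨y, y1, y2⟩ := hD' (k / 2) W' w2 w3
    obtain ⟨ε, hε, hb⟩ := Metric.nhds_basis_closedBall.mem_iff.1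
      ((w2.inter (hD (k / 2))).mem_nhds y1)
    obtain ⟨a', a1, a2⟩ := gap hv hi (Metric.isOpen_ball (x := y) (ε := ε))
      ⟨y, Metric.mem_ball_self hε, y2⟩ k
    refine ⟨⟨⟨_, a'⟩, a2⟩, (Metric.closure_ball_subset_closedBall.trans hb).trans
      (inter_subset_inter_left _ w1), a1, fun w hw => w4 w (hb (Metric.ball_subset_closedBall hw)).1⟩
  choose st s1 s2 s3 using step
  obtain ⟨a0, -, h0⟩ := gap hv hi hO hne 0
  let p0 : T := ⟨⟨O, a0⟩, h0⟩
  let q : ℕ → T × T := fun n => Nat.rec (p0, p0) (fun k p => (p.2, st p.1 p.2.1.2 k)) n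
  let W : ℕ → Set ℝ := fun n => (q n).1.1.1
  let a : ℕ → ℕ := fun n => (q n).1.1.2
  have h1 : ∀ n, closure (W (n + 2)) ⊆ W n ∩ D (n / 2) := fun n => s1 _ _ _
  have h2 : ∀ n, n ≤ a (n + 2) := fun n => s2 _ _ _
  have h3 : ∀ n, Cov x (W (n + 2)) (a n) (a (n + 1)) := fun n => s3 _ _ _
  have h4 : ∀ r < 2, ∃ y, ∃ A ∈ I, SS x A y ∧ ∀ k, y ∈ W (r + 2 * k) := by
    intro r hr
    have hWO : W r = O := by
      obtain rfl | rfl : r = 0 ∨ r = 1 := by omega
      all_goals rfl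
    obtain ⟨y, hy⟩ := IsCompact.nonempty_iInter_of_sequence_nonempty_isCompact_isClosed
      (fun k => Ac x univ ∩ closure (W (r + 2 * k)))
      (fun k => inter_subset_inter_right _ ((h1 (r + 2 * k)).trans
        (inter_subset_left.trans subset_closure)))
      (fun k => by
        obtain ⟨W', w1, -, ⟨y, y1, y2⟩, -⟩ := (q (r + 2 * k)).1.2 0
        exact ⟨y, y2, subset_closure (w1 y1)⟩)
      ((cpt hv).inter_right isClosed_closure)
      (fun k => (cpt hv).isClosed.inter isClosed_closure)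
    have h5 := fun k => h1 (r + 2 * k) (mem_iInter.1 hy (k + 1)).2
    obtain ⟨A, hA, hA'⟩ := hM y ⟨by simpa [hWO] using (h5 0).1, (mem_iInter.1 hy 0).1⟩ fun k => by
      have := (h5 k).2
      rwa [show (r + 2 * k) / 2 = k by omega] at this
    exact ⟨y, A, hA, hA', fun k => (h5 k).1⟩
  obtain ⟨y, A, hA, hA', hy⟩ := h4 0 (by norm_num)
  obtain ⟨z, B, hB, hB', hz⟩ := h4 1 (by norm_num)
  refine hS _ (hU _ (hF _ (finite_Iio (a 0))) _ (hU _ hA _ hB)) _ fun i hi => ?_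
  by_cases h : i < a 0
  · exact Or.inl h
  right
  have hex : ∃ n, i < a (n + 1) := ⟨i + 2, h2 (i + 1)⟩
  classical
  have n1 := Nat.find_spec hex
  have n2 : a (Nat.find hex) ≤ i := by
    rcases hn : Nat.find hex with _ | n
    · exact not_lt.1 h
    · exact not_lt.1 (Nat.find_min hex (m := n) (by omega))
  obtain ⟨k, hk | hk⟩ := Nat.even_or_odd' (Nat.find hex)
  · rw [hk] at n1 n2
    exact Or.inl (h3 _ y (by rw [show 2 * k + 2 = 0 + 2 * (k + 1) by ring]; exact hy (k + 1))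
      A hA' i n2 n1 hi)
  · rw [hk] at n1 n2
    exact Or.inr (h3 _ z (by rw [show 2 * k + 1 + 2 = 1 + 2 * (k + 1) by ring]; exact hz (k + 1))
      B hB' i n2 n1 hi)

end Pool.Agent.H.MP_dc2775_an
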